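import Pool.Agent.Y462.EI.Stm2

/-!
# Project EI (helper462), jobs EI-MXE and EI-CI: change of the index set; free products
-/

set_option autoImplicit false

namespace Pool.Agent.Y287.EI

open Pool.Agent.Y462.SS (Closed)
open Pool.Agent.Y462.EI

section CI

variable {C : ∀ (G : Type) [Group G], Prop}

/-- trivial groups -/
theorem triv (hC : Closed C) (G : Type) [Group G] (h : ∀ x : G, x = 1) : C G :=
  hC.of_injective G (Multiplicative ℤ) 1 (fun a b _ => by rw [h a, h b]) hC.int

/-- finite free products -/
theorem ciFin (hC : Closed C) {V : Type} (G : V → Type) [∀ v, Group (G v)]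
    (hG : ∀ v, C (G v)) (S : Finset V) : C (Monoid.CoprodI (fun w : S => G w)) := by
  classical
  induction S using Finset.induction_on with
  | empty =>
    refine triv hC _ fun x => ?_
    have h : MonoidHom.id (Monoid.CoprodI (fun w : (∅ : Finset V) => G w)) = 1 := by
      refine Monoid.CoprodI.ext_hom _ _ fun w => ?_
      exact absurd w.2 (Finset.notMem_empty _)
    exact DFunLike.congr_fun h x
  | insert v S hv ih =>
    set k : Monoid.Coprod (Monoid.CoprodI (fun w : S => G w)) (G v) →*
        Monoid.CoprodI (fun w : ↥(insert v S) => G w) :=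
      Monoid.Coprod.lift (Monoid.CoprodI.lift fun w =>
        Monoid.CoprodI.of (M := fun w : ↥(insert v S) => G w) (i := ⟨w.1, Finset.mem_insert_of_mem w.2⟩))
        (Monoid.CoprodI.of (M := fun w : ↥(insert v S) => G w) (i := ⟨v, Finset.mem_insert_self v S⟩))
      with hk
    have h1 : ∀ w : ↥(insert v S), ∃ φ : G w →*
        Monoid.Coprod (Monoid.CoprodI (fun w : S => G w)) (G v), k.comp φ =
          Monoid.CoprodI.of (M := fun w : ↥(insert v S) => G w) (i := w) := by
      rintro ⟨w, hw⟩
      rcases Finset.mem_insert.1 hw with rfl | hw'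
      · refine ⟨Monoid.Coprod.inr, ?_⟩
        ext x
        simp [hk]
      · refine ⟨Monoid.Coprod.inl.comp (Monoid.CoprodI.of (M := fun w : S => G w) (i := ⟨w, hw'⟩)), ?_⟩
        ext x
        simp [hk]
    choose φ hφ using h1
    refine hC.of_injective _ _ (Monoid.CoprodI.lift φ) ?_ (hC.coprod _ _ ih (hG v))
    have h2 : k.comp (Monoid.CoprodI.lift φ) = MonoidHom.id _ := by
      refine Monoid.CoprodI.ext_hom _ _ fun w => ?_
      ext x
      have := DFunLike.congr_fun (hφ w) x
      simpa using this
    exact Function.LeftInverse.injective (g := k) fun x => DFunLike.congr_fun h2 x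

/-- free products -/
theorem ci (hC : Closed C) {V : Type} (G : V → Type) [∀ v, Group (G v)]
    (hG : ∀ v, C (G v)) : C (Monoid.CoprodI G) := by
  classical
  refine hC.colim (Finset V) (fun i j => ⟨i ∪ j, Finset.subset_union_left, Finset.subset_union_right⟩)
    (fun S => Monoid.CoprodI (fun w : S => G w))
    (fun S T h => Monoid.CoprodI.lift fun w =>
      Monoid.CoprodI.of (M := fun w : T => G w) (i := ⟨w.1, h w.2⟩))
    (Monoid.CoprodI G) (fun S => Monoid.CoprodI.lift fun w => Monoid.CoprodI.of (M := G) (i := w.1))
    ?_ ?_ ?_ ?_ ?_ (fun S => ciFin hC G hG S)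
  · intro S h x
    have : (Monoid.CoprodI.lift fun w : S =>
        Monoid.CoprodI.of (M := fun w : S => G w) (i := ⟨w.1, h w.2⟩) :
          Monoid.CoprodI (fun w : S => G w) →* Monoid.CoprodI (fun w : S => G w)) =
        MonoidHom.id _ := by
      refine Monoid.CoprodI.ext_hom _ _ fun w => ?_
      ext y
      simp
    exact DFunLike.congr_fun this x
  · intro S T U h h' x
    have : (Monoid.CoprodI.lift fun w : T =>
        Monoid.CoprodI.of (M := fun w : U => G w) (i := ⟨w.1, h' w.2⟩) :
          Monoid.CoprodI (fun w : T => G w) →* Monoid.CoprodI (fun w : U => G w)).comp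
        (Monoid.CoprodI.lift fun w : S =>
        Monoid.CoprodI.of (M := fun w : T => G w) (i := ⟨w.1, h w.2⟩)) =
        (Monoid.CoprodI.lift fun w : S =>
        Monoid.CoprodI.of (M := fun w : U => G w) (i := ⟨w.1, h' (h w.2)⟩)) := by
      refine Monoid.CoprodI.ext_hom _ _ fun w => ?_
      ext y
      simp
    exact DFunLike.congr_fun this x
  · intro S T h x
    have : (Monoid.CoprodI.lift fun w : T => Monoid.CoprodI.of (M := G) (i := w.1) :
          Monoid.CoprodI (fun w : T => G w) →* Monoid.CoprodI G).comp
        (Monoid.CoprodI.lift fun w : S =>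
        Monoid.CoprodI.of (M := fun w : T => G w) (i := ⟨w.1, h w.2⟩)) =
        (Monoid.CoprodI.lift fun w : S => Monoid.CoprodI.of (M := G) (i := w.1)) := by
      refine Monoid.CoprodI.ext_hom _ _ fun w => ?_
      ext y
      simp
    exact DFunLike.congr_fun this x
  · intro y
    induction y using Monoid.CoprodI.induction_on with
    | one => exact ⟨∅, 1, map_one _⟩
    | of i m =>
      refine ⟨{i}, Monoid.CoprodI.of (M := fun w : ({i} : Finset V) => G w)
        (i := ⟨i, Finset.mem_singleton_self i⟩) m, ?_⟩
      simp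
    | mul x y hx hy =>
      obtain ⟨S, a, rfl⟩ := hx
      obtain ⟨T, b, rfl⟩ := hy
      have key : ∀ {S T : Finset V} (h : S ≤ T) (x : Monoid.CoprodI (fun w : S => G w)),
          (Monoid.CoprodI.lift fun w : T => Monoid.CoprodI.of (M := G) (i := w.1) :
            Monoid.CoprodI (fun w : T => G w) →* Monoid.CoprodI G)
          ((Monoid.CoprodI.lift fun w : S =>
          Monoid.CoprodI.of (M := fun w : T => G w) (i := ⟨w.1, h w.2⟩) :
            Monoid.CoprodI (fun w : S => G w) →* Monoid.CoprodI (fun w : T => G w)) x) =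
          (Monoid.CoprodI.lift fun w : S => Monoid.CoprodI.of (M := G) (i := w.1)) x := by
        intro S T h x
        have : (Monoid.CoprodI.lift fun w : T => Monoid.CoprodI.of (M := G) (i := w.1) :
              Monoid.CoprodI (fun w : T => G w) →* Monoid.CoprodI G).comp
            (Monoid.CoprodI.lift fun w : S =>
            Monoid.CoprodI.of (M := fun w : T => G w) (i := ⟨w.1, h w.2⟩)) =
            (Monoid.CoprodI.lift fun w : S => Monoid.CoprodI.of (M := G) (i := w.1)) := by
          refine Monoid.CoprodI.ext_hom _ _ fun w => ?_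
          ext y
          simp
        exact DFunLike.congr_fun this x
      refine ⟨S ∪ T, (Monoid.CoprodI.lift fun w : S =>
          Monoid.CoprodI.of (M := fun w : ↥(S ∪ T) => G w)
            (i := ⟨w.1, Finset.mem_union_left T w.2⟩)) a *
        (Monoid.CoprodI.lift fun w : T =>
          Monoid.CoprodI.of (M := fun w : ↥(S ∪ T) => G w)
            (i := ⟨w.1, Finset.mem_union_right S w.2⟩)) b, ?_⟩
      rw [map_mul, key (S := S) (T := S ∪ T) (fun _ h => Finset.mem_union_left T h) a,
        key (S := T) (T := S ∪ T) (fun _ h => Finset.mem_union_right S h) b]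
  · intro S x hx
    refine ⟨S, le_rfl, ?_⟩
    have h : (Monoid.CoprodI.lift (fun v : V => if h : v ∈ S then
        Monoid.CoprodI.of (M := fun w : S => G w) (i := ⟨v, h⟩) else 1) :
          Monoid.CoprodI G →* Monoid.CoprodI (fun w : S => G w)).comp
        (Monoid.CoprodI.lift fun w : S => Monoid.CoprodI.of (M := G) (i := w.1)) =
          MonoidHom.id _ := by
      refine Monoid.CoprodI.ext_hom _ _ fun w => ?_
      ext y
      simp
    have h1 := DFunLike.congr_fun h x
    rw [MonoidHom.comp_apply, hx, map_one, MonoidHom.id_apply] at h1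
    rw [← h1, map_one]

end CI

theorem t_ci : S_CI := fun _ hC _ G _ hG => ci hC G hG

theorem t_mxe : S_MXE := by
  constructor
  · intro M E E' _ t H _ α β
    have hx : ∀ (e' : E') (h : H e'),
        MX.st (fun e => α (t e)) (fun e => β (t e)) (t.symm e') *
          MX.of (fun e => α (t e)) (fun e => β (t e)) (α e' h) =
        MX.of (fun e => α (t e)) (fun e => β (t e)) (β e' h) *
          MX.st (fun e => α (t e)) (fun e => β (t e)) (t.symm e') := by
      intro e'
      obtain ⟨e, rfl⟩ := t.surjective e'
      intro h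
      rw [Equiv.symm_apply_apply]
      exact MX.rel (fun e => α (t e)) (fun e => β (t e)) e h
    refine ⟨MX.lift α β (MX.of (fun e => α (t e)) (fun e => β (t e)))
      (fun e' => MX.st (fun e => α (t e)) (fun e => β (t e)) (t.symm e')) hx, ?_⟩
    set k : MX (fun e => α (t e)) (fun e => β (t e)) →* MX α β :=
      MX.lift (fun e => α (t e)) (fun e => β (t e)) (MX.of α β) (fun e => MX.st α β (t e))
        (fun e h => MX.rel α β (t e) h) with hk
    have h1 : k.comp (MX.lift α β (MX.of (fun e => α (t e)) (fun e => β (t e)))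
        (fun e' => MX.st (fun e => α (t e)) (fun e => β (t e)) (t.symm e')) hx) =
          MonoidHom.id _ := by
      refine MX.hom_ext α β (fun m => ?_) (fun e' => ?_)
      · rw [MonoidHom.comp_apply, MX.lift_of, hk, MX.lift_of, MonoidHom.id_apply]
      · rw [MonoidHom.comp_apply, MX.lift_st, hk, MX.lift_st, MonoidHom.id_apply,
          Equiv.apply_symm_apply]
    exact Function.LeftInverse.injective (g := k) fun x => DFunLike.congr_fun h1 x
  · intro M _ H _ α β
    refine ⟨MX.lift α β (MonoidHom.id M) (fun e => e.elim) (fun e => e.elim), ?_⟩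
    have h1 : (MX.of α β).comp (MX.lift α β (MonoidHom.id M) (fun e => e.elim)
        (fun e => e.elim)) = MonoidHom.id _ := by
      refine MX.hom_ext α β (fun m => ?_) (fun e => e.elim)
      rw [MonoidHom.comp_apply, MX.lift_of, MonoidHom.id_apply, MonoidHom.id_apply]
    exact Function.LeftInverse.injective (g := MX.of α β) fun x => DFunLike.congr_fun h1 x

end Pool.Agent.Y287.EI
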